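import Pool.Agent.Run7.h506.TA.Stm
import Pool.Agent.W594.TL.Two
import Pool.Agent.W774.TL.Sum
import Pool.Agent.W509.TL.DOM1
import Pool.Agent.W234.TL.Dom3

/-! Piece POSF of project TA (helper506, MP_6acca1_an): in the two regions the force and the
momentum are large. -/

set_option autoImplicit false

namespace Pool.Agent.Run7.h727.TA

open Pool.Agent.W774.TL Pool.Agent.Run7.h506.TA Set Filter Topology

lemma sin_ge_neg {x : ℝ} (hx : x ≤ 0) : x ≤ Real.sin x := by
  have := Real.sin_le (x := -x) (by linarith)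
  rw [Real.sin_neg] at this
  linarith

lemma abs_S_le (u : ℝ) : |S u| ≤ |u| := by
  have hpi := Real.pi_pos
  unfold S
  rw [abs_div, abs_of_pos (by positivity : (0 : ℝ) < 2 * Real.pi), div_le_iff₀ (by positivity)]
  have key : |Real.sin (2 * Real.pi * u)| ≤ |2 * Real.pi * u| := by
    rcases le_total 0 (2 * Real.pi * u) with h | h
    · rw [abs_of_nonneg h, abs_le]
      refine ⟨?_, Real.sin_le h⟩
      have h1 := Real.neg_one_le_sin (2 * Real.pi * u)
      rcases le_total (2 * Real.pi * u) Real.pi with h2 | h2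
      · linarith [Real.sin_nonneg_of_nonneg_of_le_pi h h2]
      · linarith [Real.pi_gt_three]
    · rw [abs_of_nonpos h, abs_le]
      refine ⟨by linarith [sin_ge_neg h], ?_⟩
      have h1 := Real.sin_le_one (2 * Real.pi * u)
      rcases le_total (-Real.pi) (2 * Real.pi * u) with h2 | h2
      · linarith [Real.sin_nonpos_of_nonpos_of_neg_pi_le h h2]
      · linarith [Real.pi_gt_three]
  calc |Real.sin (2 * Real.pi * u)| ≤ |2 * Real.pi * u| := key
    _ = |u| * (2 * Real.pi) := by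
      rw [abs_mul, abs_of_pos (by positivity : (0 : ℝ) < 2 * Real.pi)]; ring

lemma S_ge (u δ : ℝ) (hδ : 1 / 100 ≤ δ) (h1 : -δ ≤ u) (h2 : u ≤ 51 / 100) : -δ ≤ S u := by
  have hpi := Real.pi_pos
  rcases le_total u 0 with h | h
  · have := (abs_le.1 (abs_S_le u)).1
    rw [abs_of_nonpos h] at this
    linarith
  rcases le_total u (1 / 2) with h3 | h3
  · have : 0 ≤ Real.sin (2 * Real.pi * u) :=
      Real.sin_nonneg_of_nonneg_of_le_pi (by positivity) (by nlinarith)
    have : 0 ≤ S u := by unfold S; positivity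
    linarith
  · have e : Real.sin (2 * Real.pi * u) = -Real.sin (2 * Real.pi * u - Real.pi) := by
      rw [Real.sin_sub_pi]; ring
    have h4 : Real.sin (2 * Real.pi * u - Real.pi) ≤ 2 * Real.pi * u - Real.pi :=
      Real.sin_le (by nlinarith)
    unfold S
    rw [le_div_iff₀ (by positivity), e]
    nlinarith

lemma Co_ge (u : ℝ) (hu : |u| ≤ 8 / 100) : 1 / 2 ≤ Co u := by
  have hpi := Real.pi_pos
  have hpi2 := Real.pi_lt_d2
  have h := Real.one_sub_sq_div_two_le_cos (x := 2 * Real.pi * u)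
  unfold Co
  have hu2 : u ^ 2 ≤ (8 / 100) ^ 2 := by
    rw [← sq_abs]; exact pow_le_pow_left₀ (abs_nonneg _) hu 2
  have hp2 : Real.pi ^ 2 ≤ 10 := by nlinarith
  have : (2 * Real.pi * u) ^ 2 ≤ 40 * (8 / 100) ^ 2 := by
    have : (2 * Real.pi * u) ^ 2 = 4 * (Real.pi ^ 2 * u ^ 2) := by ring
    rw [this]
    have := mul_le_mul hp2 hu2 (sq_nonneg u) (by norm_num)
    linarith
  linarith

lemma Co_ge' (u : ℝ) (hu : |u| ≤ 1 / 100) : 99 / 100 ≤ Co u := by
  have hpi := Real.pi_pos
  have hpi2 := Real.pi_lt_d2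
  have h := Real.one_sub_sq_div_two_le_cos (x := 2 * Real.pi * u)
  unfold Co
  have hu2 : u ^ 2 ≤ (1 / 100) ^ 2 := by
    rw [← sq_abs]; exact pow_le_pow_left₀ (abs_nonneg _) hu 2
  have hp2 : Real.pi ^ 2 ≤ 10 := by nlinarith
  have : (2 * Real.pi * u) ^ 2 ≤ 40 * (1 / 100) ^ 2 := by
    have : (2 * Real.pi * u) ^ 2 = 4 * (Real.pi ^ 2 * u ^ 2) := by ring
    rw [this]
    have := mul_le_mul hp2 hu2 (sq_nonneg u) (by norm_num)
    linarith
  linarith

lemma sg_bounds (y : ℝ) : 0 ≤ sg y ∧ sg y ≤ 1 ∧ sg y ≤ Real.exp y ∧ 1 - sg y ≤ Real.exp (-y) := by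
  have he := Real.exp_pos y
  unfold sg
  refine ⟨by positivity, ?_, ?_, ?_⟩
  · rw [div_le_one (by positivity)]; linarith
  · rw [div_le_iff₀ (by positivity)]; nlinarith
  · have : 1 - Real.exp y / (1 + Real.exp y) = 1 / (1 + Real.exp y) := by field_simp; ring
    rw [this, Real.exp_neg, ← one_div]
    exact one_div_le_one_div_of_le he (by linarith)

lemma small_exp (A : ℝ) (hA : 19683 ≤ A) : Real.exp (-(A / 100)) ≤ 1 / 100 := by
  have h := Real.add_one_le_exp (A / 100)
  rw [Real.exp_neg, ← one_div]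
  exact one_div_le_one_div_of_le (by norm_num) (by linarith)

/-- the combination is at least `1/2` -/
lemma comb (A τ a p : ℝ) (hA : 19683 ≤ A) (hR : R1 A τ a p ∨ R3 A τ a p) :
    1 / 2 ≤ (1 - sg (yy A τ a p)) * Co a + 3 * sg (yy A τ a p) * Co (a - τ) := by
  obtain ⟨hs0, hs1, hs2, hs3⟩ := sg_bounds (yy A τ a p)
  have hc1 : ∀ u, -1 ≤ Co u := fun u => Real.neg_one_le_cos _
  have hse := small_exp A hA
  have hA0 : (0 : ℝ) < A := by linarith
  rcases hR with ⟨h1, h2, h3, h4⟩ | ⟨h1, h2, h3, h4⟩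
  · have h3' := abs_le.1 h3
    rcases le_total τ (-7 / 100) with h5 | h5
    · have hS1 : -(1 / 100) ≤ S (a - τ) := S_ge _ _ le_rfl (by linarith [h3'.1]) (by linarith [h3'.2])
      have hS2 : S a ≤ 1 / 100 := le_trans (le_abs_self _) (le_trans (abs_S_le a) h3)
      have hy : yy A τ a p ≤ -(A / 100) := by
        unfold yy
        have := (abs_le.1 h4).2
        nlinarith
      have hs : sg (yy A τ a p) ≤ 1 / 100 := le_trans hs2 (le_trans (Real.exp_le_exp.2 hy) hse)
      have hca := Co_ge' a h3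
      have hcb := hc1 (a - τ)
      nlinarith
    · have hca := Co_ge a (by linarith)
      have hcb := Co_ge (a - τ) (by rw [abs_le]; constructor <;> linarith [h3'.1, h3'.2])
      nlinarith
  · have h3' := abs_le.1 h3
    rcases le_total (3 / 100) τ with h5 | h5
    · have hS1 : S (a - τ) ≤ 1 / 100 := le_trans (le_abs_self _) (le_trans (abs_S_le _) h3)
      have hS2 : -(2 / 100) ≤ S a := S_ge _ _ (by norm_num) (by linarith [h3'.1]) (by linarith [h3'.2])
      have hy : A / 100 ≤ yy A τ a p := by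
        unfold yy
        have := (abs_le.1 h4).1
        nlinarith
      have hs : 1 - sg (yy A τ a p) ≤ 1 / 100 :=
        le_trans hs3 (le_trans (Real.exp_le_exp.2 (by linarith)) hse)
      have hcb := Co_ge' (a - τ) h3
      have hca := hc1 a
      nlinarith
    · have hca := Co_ge a (by rw [abs_le]; constructor <;> linarith [h3'.1, h3'.2])
      have hcb := Co_ge (a - τ) (by linarith)
      nlinarith

theorem t_POSF : S_POSF := by
  obtain ⟨K0, hK0⟩ : P_TWO := Pool.Agent.W594.TL.two_thm Pool.Agent.W774.TL.sum_thm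
    Pool.Agent.W509.TL.DOM1.dom1_thm Pool.Agent.W234.TL.dom3_thm
  refine ⟨max K0 9, fun k hk N τ a p hR => ?_⟩
  have hA : (19683 : ℝ) ≤ 3 ^ k := by
    have : (3 : ℝ) ^ 9 ≤ 3 ^ k := pow_le_pow_right₀ (by norm_num) (le_trans (le_max_right _ _) hk)
    norm_num at this
    exact this
  obtain ⟨_, h2⟩ := hK0 k (le_trans (le_max_left _ _) hk) N τ a p hR
  have hc := comb (3 ^ k) τ a p hA hR
  have h3 := (abs_le.1 h2).1
  obtain ⟨A, hAe⟩ : ∃ A : ℝ, A = 3 ^ k := ⟨_, rfl⟩
  rw [← hAe] at hc h3 hA hR ⊢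
  constructor
  · nlinarith
  · rcases hR with ⟨h1, _, _, h4⟩ | ⟨h1, _, _, h4⟩
    · have := (abs_le.1 h4).1
      nlinarith
    · have := (abs_le.1 h4).1
      nlinarith

end Pool.Agent.Run7.h727.TA
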